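import Pool.Agent.Helper73.KA.P0b
import Pool.Agent.Helper26.KL.Ext

set_option autoImplicit false
set_option linter.unusedSectionVars false
set_option linter.style.haveILetI false

/-!
Project KA (MP_0b9e0b_ag), KA-12-5: a point of `X` with given coordinates `x` over a finite
separable extension of `N(t)`.
-/

namespace Pool.Agent.Helper26.KA

open Pool.Agent.Helper16 Pool.Agent.HC Pool.Agent.Helper1.KA
open Pool.Agent.Helper1.KL (Var VarF Key key fld spec cyc relations rat CH coef Idx)
open Pool.Agent.Helper1.KL (aff xc yc tr ec red xpt perp Prp ratf Vert Con At0 Quo cls IT RT)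
open Pool.Agent.Helper16.KLP (Above resL Gs mp mem_IT cast_coef)
open Pool.Agent.Helper16.KAP (StExt)
open Pool.Agent.Helper26.KL (exists_AS)

variable {k : Type} [Field k] {p a : ℕ} [Fact p.Prime] [CharP k p] {n : ℕ} {c : Fin n → k}

/-- **KA-12-5.** -/
theorem stExt (hL : ModLift k p a c) (τ : Fin n → Option (ZMod p)) : StExt k p a c τ := by
  classical
  intro N _ _ x r hN htr hx hρ
  obtain ⟨hx0, hx3⟩ := hx
  have hx1 : ∀ i, τ i = none → x i = none := fun i => (hx0 i).1
  have hx2 : ∀ i, τ i ≠ none → ∃ u, x i = some u := fun i hi =>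
    Option.ne_none_iff_exists'.1 fun h => hi ((hx0 i).2 h)
  obtain ⟨L, _, _, _, _, st1, st2, hF, hT, htop⟩ := exists_ratExt (k := k) N
  obtain ⟨hLE, hLtr⟩ := ratExt_data (k := k) (r := r + 1) hF hN (by rw [htr]; push_cast; rfl)
  have hchN : CharP N p := charP_of_injective_algebraMap (algebraMap k N).injective p
  have hchL : CharP L p := charP_of_injective_algebraMap (algebraMap k L).injective p
  obtain ⟨L', _, _, hfin, hsep, ε₀, hε₀⟩ := exists_AS L p (algebraMap N L (Bfun τ x))
  letI aK : Algebra (RatFunc k) L' := ((algebraMap L L').comp (algebraMap (RatFunc k) L)).toAlgebra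
  haveI st3 : IsScalarTower (RatFunc k) L L' := IsScalarTower.of_algebraMap_eq fun _ => rfl
  letI aN : Algebra N L' := ((algebraMap L L').comp (algebraMap N L)).toAlgebra
  have hNL' : ∀ a : N, algebraMap N L' a = algebraMap L L' (algebraMap N L a) := fun _ => rfl
  have hKL' : ∀ a : k, algebraMap (RatFunc k) L' (RatFunc.C a) =
      algebraMap N L' (algebraMap k N a) := by
    intro a
    rw [hNL', ← IsScalarTower.algebraMap_apply k N L, IsScalarTower.algebraMap_apply k (RatFunc k) L]
    rfl
  set ε : L' := if Bfun τ x = 0 then 1 else ε₀ with hε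
  have hε1 : ε ^ p - ε = algebraMap N L' (Bfun τ x) := by
    rw [hε]
    split_ifs with h0
    · rw [h0, map_zero, one_pow, sub_self]
    · exact hε₀
  -- sums over all indices and sums over the indices in `IT τ`
  have hsum : ∀ F : Fin n → N, ∑ i ∈ IT τ, (((RT τ i).cast : L')) * algebraMap N L' (F i) =
      algebraMap N L' (∑ i, (coef τ i : N) * F i) := by
    intro F
    rw [map_sum]
    have h1 : ∀ i, algebraMap N L' ((coef τ i : N) * F i) =
        ((RT τ i).cast : L') * algebraMap N L' (F i) := by
      intro i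
      rw [map_mul, map_natCast, cast_coef]
    rw [Finset.sum_congr rfl fun i _ => h1 i]
    refine Finset.sum_subset (Finset.subset_univ _) fun i _ hi => ?_
    have h2 : τ i = none := by
      by_contra h
      exact hi (mem_IT.2 h)
    have h3 : RT τ i = 0 := by
      unfold RT
      rw [h2]
      rfl
    rw [h3, ZMod.cast_zero, zero_mul]
  have hi0 : ∀ i ∉ IT τ, RT τ i = 0 := by
    intro i hi
    have h2 : τ i = none := by
      by_contra h
      exact hi (mem_IT.2 h)
    unfold RT
    rw [h2]
    rfl
  have heq : ε ^ p - ε = algebraMap (RatFunc k) L' RatFunc.X *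
      ∑ i ∈ IT τ, (RT τ i).cast * algebraMap (RatFunc k) L' (RatFunc.C (c i)) *
        algebraMap N L' ((x i).getD 0) ^ a +
      ∑ i ∈ IT τ, (RT τ i).cast * algebraMap N L' ((x i).getD 0) := by
    have h1 : ∀ i ∈ IT τ, (RT τ i).cast * algebraMap (RatFunc k) L' (RatFunc.C (c i)) *
        algebraMap N L' ((x i).getD 0) ^ a =
        (RT τ i).cast * algebraMap N L' (algebraMap k N (c i) * ((x i).getD 0) ^ a) := by
      intro i _
      rw [hKL', map_mul, map_pow, mul_assoc]
    have h2 : ∑ i, (coef τ i : N) * (algebraMap k N (c i) * (x i).getD 0 ^ a) = 0 := by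
      exact (Finset.sum_congr rfl fun i _ => (mul_assoc _ _ _).symm).trans hx3
    rw [Finset.sum_congr rfl h1, hsum, hsum, h2, map_zero, mul_zero, zero_add, hε1]
    rfl
  obtain ⟨M, _, aM, aKM, st4, hfinM, hsepM, z, hz1, hz2, hz3, hz4⟩ := hL L' (IT τ) (RT τ)
    (fun i => algebraMap N L' ((x i).getD 0)) ε hi0 (fun h => absurd h hρ) heq
  letI aLM : Algebra L M := ((algebraMap L' M).comp (algebraMap L L')).toAlgebra
  haveI st5 : IsScalarTower L L' M := IsScalarTower.of_algebraMap_eq fun _ => rfl
  letI aNM : Algebra N M := ((algebraMap L M).comp (algebraMap N L)).toAlgebra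
  haveI st6 : IsScalarTower N L M := IsScalarTower.of_algebraMap_eq fun _ => rfl
  letI akM : Algebra k M := ((algebraMap (RatFunc k) M).comp (algebraMap k (RatFunc k))).toAlgebra
  haveI st7 : IsScalarTower k (RatFunc k) M := IsScalarTower.of_algebraMap_eq fun _ => rfl
  have hKM : ∀ a : RatFunc k, algebraMap (RatFunc k) M a = algebraMap L M (algebraMap _ L a) := by
    intro a
    rw [IsScalarTower.algebraMap_apply (RatFunc k) L' M, IsScalarTower.algebraMap_apply
      (RatFunc k) L L']
    rfl
  haveI st8 : IsScalarTower (RatFunc k) L M := IsScalarTower.of_algebraMap_eq hKM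
  haveI st9 : IsScalarTower k L M := by
    refine IsScalarTower.of_algebraMap_eq fun a => ?_
    rw [IsScalarTower.algebraMap_apply k (RatFunc k) L, ← hKM]
    rfl
  haveI st10 : IsScalarTower k N M := by
    refine IsScalarTower.of_algebraMap_eq fun a => ?_
    rw [IsScalarTower.algebraMap_apply N L M, ← IsScalarTower.algebraMap_apply k N L,
      ← IsScalarTower.algebraMap_apply k L M]
  haveI hfinLM : FiniteDimensional L M := FiniteDimensional.trans L L' M
  haveI hsepLM : Algebra.IsSeparable L M := Algebra.IsSeparable.trans L L' M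
  have hNM : ∀ a : N, algebraMap N M a = algebraMap L' M (algebraMap N L' a) := fun _ => rfl
  refine ⟨L, M, inferInstance, inferInstance, inferInstance, akM, inferInstance, aNM, aLM,
    inferInstance, aKM, st2, st1, st10, st7, st6, st8, st9, hfinLM, hsepLM, z, hT, htop, ?_, ?_,
    hz1, ?_, fun i hi => (hz2 i hi).2, ?_⟩
  · haveI := hLE
    haveI : Algebra.EssFiniteType L M := inferInstance
    exact Algebra.EssFiniteType.comp (RatFunc k) L M
  · have h1 := trdeg_add_eq (RatFunc k) L (A := M)
    have h2 : Algebra.trdeg L M = 0 := trdeg_eq_zero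
    rw [← h1, h2, add_zero, hLtr]
    push_cast
    rfl
  · funext i
    unfold xpt mp
    by_cases hi : i ∈ IT τ
    · rw [(hz2 i hi).1]
      obtain ⟨u, hxa⟩ := hx2 i (mem_IT.1 hi)
      rw [hxa, Option.map_some, hNM]
      rfl
    · rw [hz3 i hi]
      have h2 : τ i = none := by
        by_contra h
        exact hi (mem_IT.2 h)
      rw [hx1 i h2]
      rfl
  · intro h0
    rw [hz4, hε, if_pos h0, map_one]

end Pool.Agent.Helper26.KA
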