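import Pool.Agent.Helper26.KA.Pos

set_option autoImplicit false

/-!
Project KA (MP_0b9e0b_ag): specialised points of `X` are points of `X`, and the relations in terms
of the sums over translations.
-/

namespace Pool.Agent.Helper26.KA

open Pool.Agent.Helper16 Pool.Agent.HC Pool.Agent.Helper1.KA
open Pool.Agent.Helper1.KL (Var VarF Key key fld spec cyc relations rat CH coef Idx)
open Pool.Agent.Helper1.KL (aff xc yc tr ec red xpt perp Prp ratf Vert Con At0 Quo cls IT RT)
open Pool.Agent.Helper26.KL (finite_places_spec finite_resField_spec finrank_pos_spec rel_sum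
  charP_of map_zcast cast_pow tr_neg_tr fld_tr cast_mem_ring spec_tr inv_mem_of_notMem
  spec_some_of_mem spec_none_of_notMem spec_none_of_none)

section Spec

variable {k : Type} [Field k] {p a : ℕ} [Fact p.Prime] {n : ℕ}

/-- if `w ^ p - w` is regular then `w` is regular -/
theorem mem_of_as {K N : Type} [Field K] [Field N] [Algebra K N] (v : Place K N) {w : N}
    (h : w ^ p - w ∈ v.ring) : w ∈ v.ring := by
  by_contra hw
  have hp : 1 < p := (Fact.out : p.Prime).one_lt
  obtain ⟨h1, h2, h3⟩ := inv_mem_of_notMem hw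
  obtain ⟨q, hq⟩ : ∃ q, p = q + 1 := ⟨p - 1, by omega⟩
  subst hq
  have h4 : (w ^ (q + 1) - w) * w⁻¹ ^ (q + 1) = 1 - w⁻¹ ^ q := by
    have h5 : w * w⁻¹ = 1 := mul_inv_cancel₀ h3
    have h6 : w ^ (q + 1) * w⁻¹ ^ (q + 1) = 1 := by rw [← mul_pow, h5, one_pow]
    calc (w ^ (q + 1) - w) * w⁻¹ ^ (q + 1) =
          w ^ (q + 1) * w⁻¹ ^ (q + 1) - (w * w⁻¹) * w⁻¹ ^ q := by ring
      _ = 1 - w⁻¹ ^ q := by rw [h6, h5, one_mul]
  have h5 := congrArg v.res h4
  rw [v.res_mul h (pow_mem h1 _), v.res_pow h1, h2, v.res_sub (one_mem _) (pow_mem h1 _),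
    v.res_one, v.res_pow h1, h2, zero_pow (by omega), zero_pow (by omega), mul_zero, sub_zero] at h5
  exact zero_ne_one h5

/-- A point of `X` specialises to a point of `X`. -/
theorem XV_spec (ha : 2 ≤ a) {c : Fin n → k} (hc : ∀ i, c i ≠ 0) {M : Type} [Field M]
    [Algebra (RatFunc k) M] (v : Place (RatFunc k) M) {z : Fin n ⊕ Fin n → Option M}
    (hz : XV p a c M z) : XV p a c v.resField (spec v z) := by
  intro i
  have hp : 1 < p := (Fact.out : p.Prime).one_lt
  rcases hz i with ⟨hx, hy⟩ | ⟨u, w, hx, hy, h⟩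
  · exact Or.inl ⟨spec_none_of_none hx, spec_none_of_none hy⟩
  · have ht : algebraMap (RatFunc k) M RatFunc.X ∈ v.ring := v.ring.algebraMap_mem _
    have hb : algebraMap (RatFunc k) M (RatFunc.C (c i)) ∈ v.ring := v.ring.algebraMap_mem _
    by_cases hu : u ∈ v.ring
    · have hw : w ∈ v.ring := by
        refine mem_of_as v (p := p) ?_
        rw [h]
        exact add_mem (mul_mem (mul_mem ht hb) (pow_mem hu a)) hu
      refine Or.inr ⟨v.res u, v.res w, spec_some_of_mem hx hu, spec_some_of_mem hy hw, ?_⟩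
      have h5 := congrArg v.res h
      rw [v.res_sub (pow_mem hw p) hw, v.res_pow hw,
        v.res_add (mul_mem (mul_mem ht hb) (pow_mem hu a)) hu,
        v.res_mul (mul_mem ht hb) (pow_mem hu a), v.res_mul ht hb, v.res_pow hu,
        v.res_algebraMap, v.res_algebraMap] at h5
      exact h5
    · refine Or.inl ⟨spec_none_of_notMem hx hu, spec_none_of_notMem hy fun hw => ?_⟩
      obtain ⟨h1, h2, h3⟩ := inv_mem_of_notMem hu
      obtain ⟨q, hq⟩ : ∃ q, a = q + 1 := ⟨a - 1, by omega⟩
      have hq1 : 1 ≤ q := by omega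
      have h4 : (w ^ p - w) * u⁻¹ ^ a = algebraMap (RatFunc k) M RatFunc.X *
          algebraMap (RatFunc k) M (RatFunc.C (c i)) + u⁻¹ ^ q := by
        rw [h, hq]
        have h5 : u * u⁻¹ = 1 := mul_inv_cancel₀ h3
        have h6 : u ^ (q + 1) * u⁻¹ ^ (q + 1) = 1 := by rw [← mul_pow, h5, one_pow]
        calc (algebraMap (RatFunc k) M RatFunc.X * algebraMap (RatFunc k) M (RatFunc.C (c i)) *
                u ^ (q + 1) + u) * u⁻¹ ^ (q + 1) =
              algebraMap (RatFunc k) M RatFunc.X * algebraMap (RatFunc k) M (RatFunc.C (c i)) *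
                (u ^ (q + 1) * u⁻¹ ^ (q + 1)) + (u * u⁻¹) * u⁻¹ ^ q := by ring
          _ = _ := by rw [h6, h5, one_mul, mul_one]
      have h5 := congrArg v.res h4
      rw [v.res_mul (sub_mem (pow_mem hw p) hw) (pow_mem h1 a), v.res_pow h1, h2,
        zero_pow (by omega), mul_zero, v.res_add (mul_mem ht hb) (pow_mem h1 q), v.res_mul ht hb,
        v.res_pow h1, h2, zero_pow (by omega), add_zero, v.res_algebraMap, v.res_algebraMap,
        ← map_mul] at h5
      have h6 := (map_eq_zero _).1 h5.symm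
      rcases mul_eq_zero.1 h6 with h7 | h7
      · exact RatFunc.X_ne_zero h7
      · exact hc i ((map_eq_zero _).1 h7)

end Spec

section Rel

variable {k : Type} [Field k] {p a : ℕ} [Fact p.Prime] [CharP k p] {n : ℕ} {c : Fin n → k} {r : ℕ}

/-- A relation, summed over the translations in `H`. -/
theorem rel_SH (ha : 2 ≤ a) (hc : ∀ i, c i ≠ 0) {M : Type} [Field M] [Algebra (RatFunc k) M]
    (hM : Algebra.EssFiniteType (RatFunc k) M) (htr : Algebra.trdeg (RatFunc k) M = r + 1)
    {z : Fin n ⊕ Fin n → Option M} (hz : XV p a c M z) {f : M} (hf : f ≠ 0)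
    (H : Finset (Fin n → ZMod p)) :
    ∃ S : Finset (Place (RatFunc k) M),
      (∀ v, v ∈ S ↔ v.ord f ≠ 0 ∧ Algebra.trdeg (RatFunc k) (fld (RatFunc k) (spec v z)) = r) ∧
      (∀ v ∈ S, FiniteDimensional (fld (RatFunc k) (spec v z)) v.resField) ∧
      ∑ v ∈ S, ((v.ord f * Module.finrank (fld (RatFunc k) (spec v z)) v.resField : ℤ) : ℚ) •
        SH p a c r H (spec v z) = 0 := by
  classical
  have hch : ∀ (N : Type) [Field N] [Algebra (RatFunc k) N], CharP N p :=
    fun N _ _ => charP_of k p N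
  have hfin := finite_places_spec hM htr z f
  set S := hfin.toFinset with hS
  have hmem : ∀ v, v ∈ S ↔ v.ord f ≠ 0 ∧
      Algebra.trdeg (RatFunc k) (fld (RatFunc k) (spec v z)) = r := by
    intro v
    rw [hS, Set.Finite.mem_toFinset, Set.mem_ofPred_eq]
  refine ⟨S, hmem, fun v hv => finite_resField_spec hM htr ((hmem v).1 hv).2, ?_⟩
  have h3 : ∀ h : Fin n → ZMod p, ∑ v ∈ S,
      ((v.ord f * Module.finrank (fld (RatFunc k) (spec v z)) v.resField : ℤ) : ℚ) •
        cl p a c r (tr h (spec v z)) = 0 := by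
    intro h
    have h4 := rel_sum (V := XV p a c) (P := fun N _ _ z _ => XV p a c N z) (r := r) hM htr
      (z := tr h z) (f := f) (XV_tr h hz) hf (S := S) (fun v => by
        have := hch v.resField
        rw [hmem, spec_tr, XV_tr_iff, fld_tr]
        exact ⟨fun h => ⟨h.1, XV_spec ha hc v hz, h.2⟩, fun h => ⟨h.1, h.2.2⟩⟩)
    rw [← h4]
    refine Finset.sum_congr rfl fun v _ => ?_
    have := hch v.resField
    rw [spec_tr, fld_tr]
  unfold SH
  simp only [Finset.smul_sum]
  rw [Finset.sum_comm]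
  exact Finset.sum_eq_zero fun h _ => h3 h

end Rel

end Pool.Agent.Helper26.KA
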