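import Pool.Agent.Helper26.KL.RelSH
import Pool.Agent.Helper1.KA.Stmts

set_option autoImplicit false

/-!
Project KA (MP_0b9e0b_ag), KA-2: the sum of the relations over the translations.
-/

namespace Pool.Agent.Helper26.KA

open Pool.Agent.Helper16 Pool.Agent.HC Pool.Agent.Helper1.KA
open Pool.Agent.Helper1.KL (Var VarF Key key fld spec cyc relations rat CH coef Idx)
open Pool.Agent.Helper1.KL (aff xc yc tr ec red xpt perp Prp ratf Vert Con At0 Quo cls IT RT)
open Pool.Agent.Helper26.KL (finite_places_spec finite_resField_spec finrank_pos_spec rel_sum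
  charP_of map_zcast cast_pow tr_neg_tr fld_tr cast_mem_ring spec_tr inv_mem_of_notMem
  spec_some_of_mem spec_none_of_notMem spec_none_of_none)

section Tr

variable {k : Type} [Field k] {p a : ℕ} [Fact p.Prime] [CharP k p] {n : ℕ}

theorem curve_tr {N : Type} [Field N] [CharP N p] {t d : N} {x y : Option N} (h : ZMod p)
    (hc : Curve p a t d x y) : Curve p a t d x (y.map fun w => w + (h.cast : N)) := by
  rcases hc with ⟨hx, rfl⟩ | ⟨u, w, hx, rfl, h1⟩
  · exact Or.inl ⟨hx, rfl⟩
  · refine Or.inr ⟨u, w + h.cast, hx, rfl, ?_⟩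
    rw [← h1, add_pow_char, cast_pow]
    ring

theorem XV_tr {c : Fin n → k} {N : Type} [Field N] [Algebra (RatFunc k) N]
    {z : Fin n ⊕ Fin n → Option N} (h : Fin n → ZMod p) (hz : XV p a c N z) :
    XV p a c N (tr h z) := by
  have := charP_of k p N
  exact fun i => curve_tr (h i) (hz i)

theorem XV_tr_iff {c : Fin n → k} {N : Type} [Field N] [Algebra (RatFunc k) N]
    {z : Fin n ⊕ Fin n → Option N} (h : Fin n → ZMod p) :
    XV p a c N (tr h z) ↔ XV p a c N z := by
  have := charP_of k p N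
  refine ⟨fun hz => ?_, XV_tr h⟩
  have h1 := XV_tr (-h) hz
  rwa [tr_neg_tr] at h1

end Tr

section Main

variable (k : Type) [Field k] (p a : ℕ) [Fact p.Prime] [CharP k p] {n : ℕ} (c : Fin n → k) (r : ℕ)

/-- **KA-2.** -/
theorem modPos : ModPos k p a c r := by
  intro M _ _ hM htr z hz f hf H W α h1 h2
  classical
  have hch : ∀ (N : Type) [Field N] [Algebra (RatFunc k) N], CharP N p :=
    fun N _ _ => charP_of k p N
  have hfin := (finite_places_spec hM htr z f).subset
    (show {v : Place (RatFunc k) M | v.ord f ≠ 0 ∧ XV p a c v.resField (spec v z) ∧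
      Algebra.trdeg (RatFunc k) (fld (RatFunc k) (spec v z)) = r} ⊆ _ from
      fun v hv => ⟨hv.1, hv.2.2⟩)
  set S := hfin.toFinset with hS
  have hmem : ∀ v, v ∈ S ↔ v.ord f ≠ 0 ∧ XV p a c v.resField (spec v z) ∧
      Algebra.trdeg (RatFunc k) (fld (RatFunc k) (spec v z)) = r := by
    intro v
    rw [hS, Set.Finite.mem_toFinset, Set.mem_ofPred_eq]
  let m : Place (RatFunc k) M → ℚ := fun v =>
    ((v.ord f * Module.finrank (fld (RatFunc k) (spec v z)) v.resField : ℤ) : ℚ)
  have h3 : ∀ h : Fin n → ZMod p, ∑ v ∈ S, m v • cl p a c r (tr h (spec v z)) = 0 := by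
    intro h
    have h4 := rel_sum (V := XV p a c) (P := fun N _ _ z _ => XV p a c N z) (r := r) hM htr
      (z := tr h z) (f := f) (XV_tr h hz) hf (S := S) (fun v => by
        have := hch v.resField
        rw [hmem, spec_tr, XV_tr_iff, fld_tr])
    rw [← h4]
    refine Finset.sum_congr rfl fun v _ => ?_
    have := hch v.resField
    rw [spec_tr, fld_tr]
  have h4 : ∑ v ∈ S, m v • SH p a c r H (spec v z) = 0 := by
    unfold SH
    simp only [Finset.smul_sum]
    rw [Finset.sum_comm]
    exact Finset.sum_eq_zero fun h _ => h3 h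
  by_contra hcon
  rw [← Finset.sum_filter_add_sum_filter_not S (fun v => SH p a c r H (spec v z) = α)] at h4
  have h5 : (∑ v ∈ S with ¬ SH p a c r H (spec v z) = α, m v • SH p a c r H (spec v z)) ∈ W := by
    refine sum_mem fun v hv => W.smul_mem _ ?_
    rw [Finset.mem_filter, hmem] at hv
    rcases h1 v hv.1.1 hv.1.2.1 hv.1.2.2 with h | h
    · exact h
    · exact absurd h.2 hv.2
  have h6 : (∑ v ∈ S with SH p a c r H (spec v z) = α, m v • SH p a c r H (spec v z)) =
      (∑ v ∈ S with SH p a c r H (spec v z) = α, m v) • α := by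
    rw [Finset.sum_smul]
    refine Finset.sum_congr rfl fun v hv => ?_
    rw [(Finset.mem_filter.1 hv).2]
  rw [h6] at h4
  have h7 : (∑ v ∈ S with SH p a c r H (spec v z) = α, m v) • α ∈ W := by
    rw [eq_neg_of_add_eq_zero_left h4]
    exact W.neg_mem h5
  refine hcon ?_
  have hpos : 0 < ∑ v ∈ S with SH p a c r H (spec v z) = α, m v := by
    refine Finset.sum_pos (fun v hv => ?_) ?_
    · rw [Finset.mem_filter, hmem] at hv
      rcases h1 v hv.1.1 hv.1.2.1 hv.1.2.2 with h | h
      · rw [hv.2] at h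
        exact absurd h hcon
      · have h8 := finrank_pos_spec hM htr hv.1.2.2
        change (0 : ℚ) < ((_ : ℤ) : ℚ)
        exact_mod_cast mul_pos h.1 (by exact_mod_cast h8)
    · obtain ⟨v, h8, h9, h10, h11⟩ := h2
      exact ⟨v, by rw [Finset.mem_filter, hmem]; exact ⟨⟨h8.ne', h9, h10⟩, h11⟩⟩
  have h8 := W.smul_mem (∑ v ∈ S with SH p a c r H (spec v z) = α, m v)⁻¹ h7
  rwa [smul_smul, inv_mul_cancel₀ hpos.ne', one_smul] at h8

end Main

end Pool.Agent.Helper26.KA
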